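import Mathlib

namespace Pool.Agent.Results.MP_5675d3_gt.CompactExample

open Set Topology TopologicalSpace

/-- A nonempty family of nonempty sets with no infinite strictly increasing chain. -/
def Noetherian {X : Type} (F : Set (Set X)) : Prop :=
  F.Nonempty ∧ ∅ ∉ F ∧ ¬ ∃ A : ℕ → Set X, (∀ n, A n ∈ F) ∧ ∀ n, A n ⊂ A (n + 1)

/-- The layers: layer `i` consists of the maximal members of `F` outside the earlier layers. -/
noncomputable def layer {X : Type} (F : Set (Set X)) : Ordinal.{0} → Set (Set X) :=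
  wellFounded_lt.fix fun i L => {A | Maximal (fun B => B ∈ F ∧ ∀ j (h : j < i), B ∉ L j h) A}

/-- The least ordinal `α` such that `F` is the union of the layers below `α`. -/
noncomputable def rank {X : Type} (F : Set (Set X)) : Ordinal.{0} :=
  sInf {α | F = ⋃ i < α, layer F i}

lemma mem_layer {X : Type} {F : Set (Set X)} {i : Ordinal.{0}} {A : Set X} :
    A ∈ layer F i ↔ Maximal (fun B => B ∈ F ∧ ∀ j < i, B ∉ layer F j) A := by
  rw [layer, WellFounded.fix_eq]; rfl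

lemma up {X : Type} {F : Set (Set X)} {i : Ordinal.{0}} {A T : Set X} (h : A ∈ layer F i)
    (hT : T ∈ F) (s : A ⊂ T) : ∃ j < i, T ∈ layer F j := by
  by_contra hn
  push Not at hn
  exact s.2 ((mem_layer.1 h).2 ⟨hT, hn⟩ s.1)

lemma down {X : Type} {F : Set (Set X)} {i : Ordinal.{0}} {A : Set X} (h : A ∈ F)
    (H : ∀ T ∈ F, A ⊂ T → ∃ j < i, T ∈ layer F j) : ∃ j ≤ i, A ∈ layer F j := by
  by_cases h1 : ∃ j < i, A ∈ layer F j
  · obtain ⟨j, hj, h2⟩ := h1; exact ⟨j, hj.le, h2⟩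
  · push Not at h1
    refine ⟨i, le_rfl, mem_layer.2 ⟨⟨h, h1⟩, fun T hT s => ?_⟩⟩
    by_contra hn
    obtain ⟨j, hj, h2⟩ := H T hT.1 ⟨s, hn⟩
    exact hT.2 j hj h2

def D : Type := ℝ
instance : TopologicalSpace D := ⊥
instance : DiscreteTopology D := ⟨rfl⟩
instance : Uncountable D := inferInstanceAs (Uncountable ℝ)

abbrev X : Type := OnePoint D

def B : Set (Set X) := {S | (∃ d : D, S = {(d : X)}) ∨ (OnePoint.infty ∈ S ∧ Sᶜ.Finite)}

lemma fin_iff {S : Set X} (h : OnePoint.infty ∈ S) : IsOpen S ↔ Sᶜ.Finite := by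
  rw [OnePoint.isOpen_iff_of_mem' h, isCompact_iff_finite, ← preimage_compl]
  simp only [isOpen_discrete, and_true]
  refine ⟨fun h1 => (h1.image (↑)).subset fun x hx => ?_, fun h1 => h1.preimage
    OnePoint.coe_injective.injOn⟩
  induction x using OnePoint.rec with
  | infty => exact absurd h hx
  | coe d => exact ⟨d, hx, rfl⟩

lemma sing_open (d : D) : IsOpen {(d : X)} := by
  rw [← image_singleton, OnePoint.isOpen_image_coe]; exact isOpen_discrete _

lemma B_basis : IsTopologicalBasis B := by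
  refine isTopologicalBasis_of_isOpen_of_nhds ?_ fun x U hx hU => ?_
  · rintro _ (⟨d, rfl⟩ | ⟨h1, h2⟩)
    · exact sing_open d
    · exact (fin_iff h1).2 h2
  · induction x using OnePoint.rec with
    | infty => exact ⟨U, Or.inr ⟨hx, (fin_iff hx).1 hU⟩, hx, Subset.rfl⟩
    | coe d => exact ⟨_, Or.inl ⟨d, rfl⟩, rfl, singleton_subset_iff.2 hx⟩

lemma big {S T : Set X} (hS : S.Nonempty) (hT : T ∈ B) (s : S ⊂ T) : Tᶜ.Finite := by
  rcases hT with ⟨d, rfl⟩ | h
  · exact absurd (ssubset_singleton_iff.1 s) hS.ne_empty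
  · exact h.2

lemma B_ne {S : Set X} (h : S ∈ B) : S.Nonempty := by
  rcases h with ⟨d, rfl⟩ | h
  · exact singleton_nonempty _
  · exact ⟨_, h.1⟩

lemma B_noeth : Noetherian B := by
  refine ⟨⟨univ, Or.inr ⟨trivial, by simp⟩⟩, fun h => (B_ne h).ne_empty rfl, ?_⟩
  rintro ⟨A, h1, h2⟩
  have f : ∀ n, (A (n + 1))ᶜ.Finite := fun n => big (B_ne (h1 n)) (h1 _) (h2 n)
  have : StrictAnti fun n => (A (n + 1))ᶜ.ncard := strictAnti_nat_of_succ_lt fun n =>
    ncard_lt_ncard (compl_lt_compl_iff_lt.2 (h2 _)) (f n)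
  exact not_strictAnti_of_wellFoundedLT _ this

lemma cof_layer {F : Set (Set X)} : ∀ n : ℕ, ∀ S ∈ F, Sᶜ.Finite → Sᶜ.ncard ≤ n →
    ∃ j ≤ (n : Ordinal.{0}), S ∈ layer F j := by
  intro n
  induction n using Nat.strong_induction_on with
  | _ n ih =>
    intro S hS f c
    refine down hS fun T hT s => ?_
    have := ncard_lt_ncard (compl_lt_compl_iff_lt.2 s) f
    obtain ⟨j, hj, h⟩ := ih (Tᶜ.ncard) (by omega) T hT (f.subset (compl_subset_compl.2 s.1)) le_rfl
    exact ⟨j, hj.trans_lt (Nat.cast_lt.2 (by omega)), h⟩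

lemma rank_eq {F : Set (Set X)} (hF : F ⊆ B) (hb : IsTopologicalBasis F) :
    rank F = Ordinal.omega0 + 1 := by
  have cf : ∀ S ∈ F, Sᶜ.Finite → ∃ j < Ordinal.omega0, S ∈ layer F j := fun S hS f => by
    obtain ⟨j, hj, h⟩ := cof_layer _ S hS f le_rfl
    exact ⟨j, hj.trans_lt (Ordinal.natCast_lt_omega0 _), h⟩
  have mem : F = ⋃ i < Ordinal.omega0 + 1, layer F i := by
    refine Subset.antisymm (fun S hS => ?_) (iUnion₂_subset fun i _ S h => (mem_layer.1 h).1.1)
    obtain ⟨j, hj, h⟩ := down (i := Ordinal.omega0) hS fun T hT s =>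
      cf T hT (big (B_ne (hF hS)) (hF hT) s)
    exact mem_iUnion₂.2 ⟨j, Order.lt_add_one_iff.2 hj, h⟩
  have step : ∀ U : {U // U ∈ F ∧ OnePoint.infty ∈ U},
      ∃ V : {U // U ∈ F ∧ OnePoint.infty ∈ U}, V.1 ⊂ U.1 := by
    rintro ⟨U, hU, hi⟩
    have f := (fin_iff hi).1 (hb.isOpen hU)
    obtain ⟨d, hd⟩ := (f.preimage OnePoint.coe_injective.injOn).exists_notMem
    have hd' : (d : X) ∈ U := not_not.1 hd
    obtain ⟨V, hV, h1, h2⟩ := hb.exists_subset_of_mem_open (a := OnePoint.infty)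
      (u := U \ {(d : X)}) ⟨hi, OnePoint.infty_ne_coe d⟩ ((hb.isOpen hU).sdiff isClosed_singleton)
    exact ⟨⟨V, hV, h1⟩, h2.trans sdiff_subset, fun h => (h2 (h hd')).2 rfl⟩
  choose nx hnx using step
  obtain ⟨U0, h0, h1, -⟩ := hb.exists_subset_of_mem_open (mem_univ OnePoint.infty) isOpen_univ
  let U : ℕ → {U // U ∈ F ∧ OnePoint.infty ∈ U} := fun n => nx^[n] ⟨U0, h0, h1⟩
  have hU : ∀ n, (U (n + 1)).1 ⊂ (U n).1 := fun n => by
    simp only [U, Function.iterate_succ_apply']; exact hnx _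
  have low : ∀ n : ℕ, ∀ A i, A ∈ layer F i → A ⊂ (U n).1 → (n : Ordinal.{0}) < i := by
    intro n
    induction n with
    | zero =>
      intro A i h s
      obtain ⟨j, hj, -⟩ := up h (U 0).2.1 s
      simpa using lt_of_le_of_lt zero_le hj
    | succ n ih =>
      intro A i h s
      obtain ⟨j, hj, h2⟩ := up h (U _).2.1 s
      have := ih _ j h2 (hU n)
      push_cast
      exact lt_of_le_of_lt (Order.add_one_le_iff.2 this) hj
  have cnt : (⋃ n, ((↑) : D → X) ⁻¹' (U n).1ᶜ).Countable := countable_iUnion fun n =>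
    (((fin_iff (U n).2.2).1 (hb.isOpen (U n).2.1)).preimage OnePoint.coe_injective.injOn).countable
  obtain ⟨d, hd⟩ : ∃ d, d ∉ ⋃ n, ((↑) : D → X) ⁻¹' (U n).1ᶜ := by
    by_contra h
    push Not at h
    exact not_countable_univ (eq_univ_of_forall h ▸ cnt)
  simp only [mem_iUnion, mem_preimage, mem_compl_iff, not_exists, not_not] at hd
  obtain ⟨V, hV, v1, v2⟩ := hb.exists_subset_of_mem_open (mem_singleton (d : X)) (sing_open d)
  refine le_antisymm (csInf_le' mem) (le_csInf ⟨_, mem⟩ fun α hα => ?_)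
  obtain ⟨i, hi, h⟩ := mem_iUnion₂.1 (hα ▸ hV : V ∈ ⋃ i < α, layer F i)
  refine Order.add_one_le_iff.2 (lt_of_le_of_lt (Ordinal.omega0_le.2 fun n => (low n V i h ?_).le) hi)
  exact ⟨v2.trans (singleton_subset_iff.2 (hd n)), fun s =>
    OnePoint.infty_ne_coe d (v2 (s (U n).2.2))⟩

theorem result : ∃ (Y : Type) (_ : TopologicalSpace Y) (F : Set (Set Y)),
    CompactSpace Y ∧ T2Space Y ∧ IsTopologicalBasis F ∧ Noetherian F ∧
    (rank F).card.ord ≠ rank F ∧
    ∀ F' ⊆ F, IsTopologicalBasis F' → Noetherian F' → (rank F).card.ord < rank F' := by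
  have e : (Ordinal.omega0 + 1 : Ordinal.{0}).card.ord = Ordinal.omega0 := by simp
  refine ⟨X, inferInstance, B, inferInstance, inferInstance, B_basis, B_noeth, ?_,
    fun F' h1 h2 _ => ?_⟩
  · rw [rank_eq Subset.rfl B_basis, e]; exact (lt_add_one _).ne
  · rw [rank_eq Subset.rfl B_basis, e, rank_eq h1 h2]; exact lt_add_one _

end Pool.Agent.Results.MP_5675d3_gt.CompactExample
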